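import Pool.Agent.H94.HP3

set_option autoImplicit false

namespace Pool.Agent.Results.MP_19b229_an.Dominated
open Set Filter Topology MeasureTheory Pool.Agent.H94.HP
open scoped NNReal ENNReal

theorem result (N : ℕ) (hN : 2 ≤ N) (Ω : Set (EuclideanSpace ℝ (Fin N))) (hΩ : IsOpen Ω)
    (hb : Bornology.IsBounded Ω) (β : ℝ≥0) (hβ : 0 < β) (_hβ1 : β < 1)
    (μ : SignedMeasure (EuclideanSpace ℝ (Fin N))) (hμ : μ.totalVariation Ωᶜ = 0)
    (hu : ∃ (K : ℝ≥0) (v : EuclideanSpace ℝ (Fin N) → ℝ),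
      HolderOnWith K β v Ω ∧ pot μ =ᵐ[volume.restrict Ω] v)
    (c : ℝ≥0) (hc : 0 < c) :
    (∃ D : ℝ≥0, ∀ A, MeasurableSet A → μ.totalVariation A ≤ D * μH[(N : ℝ) - 2 + β] A) ∧
    ∃ ν : ℕ → SignedMeasure (EuclideanSpace ℝ (Fin N)),
      (∀ n, (ν n).totalVariation Ωᶜ = 0) ∧
      (∀ n A, MeasurableSet A →
        (ν n).totalVariation A ≤ (n : ℝ≥0∞) * (c * μH[(N : ℝ) - 2 + β] A)) ∧
      Tendsto (fun n => (ν n - μ).totalVariation univ) atTop (𝓝 0) := by
  obtain ⟨K, v, hv, hu⟩ := hu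
  obtain ⟨D, hD⟩ := main hN hΩ hb hβ μ hμ hv hu
  refine ⟨⟨D, hD⟩, fun n => if D ≤ n * c then μ else 0, fun n => ?_, fun n A hA => ?_, ?_⟩
  · dsimp only
    split_ifs
    · exact hμ
    · simp [SignedMeasure.totalVariation_zero]
  · dsimp only
    split_ifs with h
    · refine (hD A hA).trans ?_
      rw [← mul_assoc]
      exact mul_le_mul_left (by exact_mod_cast h) _
    · simp [SignedMeasure.totalVariation_zero]
  · refine tendsto_const_nhds.congr' ?_
    filter_upwards [eventually_ge_atTop ⌈D / c⌉₊] with n hn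
    have : D ≤ n * c := (div_le_iff₀ hc).1 (Nat.ceil_le.1 hn)
    simp [this, SignedMeasure.totalVariation_zero]

end Pool.Agent.Results.MP_19b229_an.Dominated
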